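import Mathlib
import Pool.Agent.H12.Defs
import Pool.Agent.H12.FixedLambda

/-!
# For a fixed `l`, almost no admissible block size is realised by a symmetric design

Fix `l > 0`.  Among the block sizes `l < k ≤ K` with `l ∣ k (k-1)`, the proportion of those for
which there is a symmetric `(v,k,l)`-design (for some `v`) tends to `0` as `K → ∞`; when `l` is a
perfect square this is stated for the designs with `v % 4 ≠ 1` only.
-/

namespace Pool.Agent.Results.MP_3038d1_co.FixedLambda

open Filter Topology Pool.Agent.H12

theorem result (l : ℕ) (hl : 0 < l) :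
    (∀ K, (admissibleSizes l K).Finite) ∧ (∀ K, designSizes l K ⊆ admissibleSizes l K) ∧
    Tendsto (fun K : ℕ => ((designSizes l K).ncard : ℝ) / ((admissibleSizes l K).ncard : ℝ))
      atTop (𝓝 0) :=
  fixed_lambda l hl

end Pool.Agent.Results.MP_3038d1_co.FixedLambda
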